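import Mathlib

/-!
# `S_6` is generated unicursally by `(5 6)` and `(1 2 3 4 5)`

The first open case `n = 6` of the question MP_c9dba7_co.  The directed Hamiltonian cycle (of
length `720`) in the Cayley digraph is written out as the list `path` of the codes of its
vertices.
-/

namespace Pool.Agent.Results.MP_c9dba7_co.SymSix

open Equiv

/-- The partial products `g_k = t_1 t_2 ⋯ t_k` of a sequence `t_1, t_2, …` (with `g_0 = 1`). -/
def partialProd {G : Type*} [Group G] (t : ℕ → G) : ℕ → G
  | 0 => 1
  | k + 1 => partialProd t k * t (k + 1)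

/-- The group `G` (of order `N`) is generated unicursally by `T`: there are `t_1, …, t_N` in `T`
such that the partial products `g_1, …, g_N` are pairwise distinct and `g_N = 1`. -/
def GeneratedUnicursally {G : Type*} [Group G] (T : Set G) : Prop :=
  ∃ t : ℕ → G, (∀ k, 1 ≤ k → k ≤ Nat.card G → t k ∈ T) ∧
    (∀ i j, 1 ≤ i → i < j → j ≤ Nat.card G → partialProd t i ≠ partialProd t j) ∧
    partialProd t (Nat.card G) = 1

/-- The transposition `A = (n-1 n)` for `n = m + 2`, as a permutation of `Fin n` (the symbols
`1, …, n` are `0, …, n - 1` here). -/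
def A (m : ℕ) : Perm (Fin (m + 2)) := swap (Fin.last m).castSucc (Fin.last (m + 1))

/-- The `(n-1)`-cycle `B = (1 2 ⋯ n-1)` for `n = m + 2`, as a permutation of `Fin n`. -/
def B (m : ℕ) : Perm (Fin (m + 2)) := Fin.cycleRange (Fin.last m).castSucc

/-- The code of a permutation of six symbols. -/
def enc (g : Perm (Fin 6)) : ℕ :=
  (g 0 : ℕ) + 8 * (g 1 : ℕ) + 64 * (g 2 : ℕ) + 512 * (g 3 : ℕ) + 4096 * (g 4 : ℕ) +
    32768 * (g 5 : ℕ)

/-- The action of `A` on codes. -/
def stepA (s : ℕ) : ℕ := s % 4096 + 4096 * (s / 32768) + 32768 * (s / 4096 % 8)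

/-- The action of `B` on codes. -/
def stepB (s : ℕ) : ℕ := s % 32768 / 8 + 4096 * (s % 8) + 32768 * (s / 32768)

theorem enc_mul_A (g : Perm (Fin 6)) : enc (g * A 4) = stepA (enc g) := by
  have e0 : (A 4) 0 = 0 := by decide
  have e1 : (A 4) 1 = 1 := by decide
  have e2 : (A 4) 2 = 2 := by decide
  have e3 : (A 4) 3 = 3 := by decide
  have e4 : (A 4) 4 = 5 := by decide
  have e5 : (A 4) 5 = 4 := by decide
  have h0 := (g 0).isLt
  have h1 := (g 1).isLt
  have h2 := (g 2).isLt
  have h3 := (g 3).isLt
  have h4 := (g 4).isLt
  have h5 := (g 5).isLt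
  simp only [enc, stepA, Perm.mul_apply, e0, e1, e2, e3, e4, e5]
  omega

theorem enc_mul_B (g : Perm (Fin 6)) : enc (g * B 4) = stepB (enc g) := by
  have e0 : (B 4) 0 = 1 := by decide
  have e1 : (B 4) 1 = 2 := by decide
  have e2 : (B 4) 2 = 3 := by decide
  have e3 : (B 4) 3 = 4 := by decide
  have e4 : (B 4) 4 = 0 := by decide
  have e5 : (B 4) 5 = 5 := by decide
  have h0 := (g 0).isLt
  have h1 := (g 1).isLt
  have h2 := (g 2).isLt
  have h3 := (g 3).isLt
  have h4 := (g 4).isLt
  have h5 := (g 5).isLt
  simp only [enc, stepB, Perm.mul_apply, e0, e1, e2, e3, e4, e5]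
  omega

/-- The code of the identity. -/
def encOne : ℕ := 181896

theorem enc_eq_one (g : Perm (Fin 6)) (h : enc g = encOne) : g = 1 := by
  have h0 := (g 0).isLt
  have h1 := (g 1).isLt
  have h2 := (g 2).isLt
  have h3 := (g 3).isLt
  have h4 := (g 4).isLt
  have h5 := (g 5).isLt
  simp only [enc, encOne] at h
  ext i
  fin_cases i
  · change (g 0 : ℕ) = 0; omega
  · change (g 1 : ℕ) = 1; omega
  · change (g 2 : ℕ) = 2; omega
  · change (g 3 : ℕ) = 3; omega
  · change (g 4 : ℕ) = 4; omega
  · change (g 5 : ℕ) = 5; omega

/-- The list of codes is a walk starting at code `s` and ending at the identity. -/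
def walk : ℕ → List ℕ → Bool
  | s, [] => Nat.beq s encOne
  | s, s' :: l => (Nat.beq s' (stepA s) || Nat.beq s' (stepB s)) && walk s' l

/-- Membership in a list of codes. -/
def memb (x : ℕ) : List ℕ → Bool
  | [] => false
  | y :: l => Nat.beq x y || memb x l

/-- The list of codes has no repetition. -/
def nodupb : List ℕ → Bool
  | [] => true
  | x :: l => !(memb x l) && nodupb l

theorem memb_iff (x : ℕ) (l : List ℕ) : memb x l = true ↔ x ∈ l := by
  induction l with
  | nil => simp [memb]
  | cons y l ih => simp [memb, ih]

theorem nodupb_iff (l : List ℕ) : nodupb l = true ↔ l.Nodup := by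
  induction l with
  | nil => simp [nodupb]
  | cons y l ih =>
    rw [List.nodup_cons, ← ih, ← memb_iff]
    simp [nodupb]

/-- The codes of the vertices `g_1, …, g_720` of the Hamiltonian cycle. -/
def path : List ℕ :=
  [166097, 168218, 53530, 43555, 72227, 78660, 107332, 115816, 144488, 132749, 18061, 22737, 6938,
   35610, 41315, 46124, 50821, 55504, 170192, 164634, 172131, 86115, 80396, 83777, 71912, 66333,
   8989, 21603, 14988, 18257, 6378, 35050, 41245, 54307, 47748, 51024, 137040, 131818, 139357,
   152587, 146049, 117377, 104784, 99114, 106597, 119820, 177164, 181889, 153217, 137936, 51920,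
   35162, 41259, 46117, 54916, 169604, 180944, 165978, 172299, 177185, 119841, 105092, 115536,
   100458, 106765, 78093, 87585, 72388, 82776, 67691, 10347, 13581, 22177, 6868, 17242, 131930,
   139371, 144397, 115725, 120961, 105232, 47888, 34658, 41196, 50205, 55427, 170115, 176912,
   165474, 172236, 181273, 152601, 137859, 144208, 132714, 139469, 82125, 88089, 72451, 43779,
   46432, 34476, 5804, 17109, 22618, 11019, 13665, 99681, 102572, 45228, 50709, 136725, 152258,
   180930, 174168, 165131, 21771, 15009, 5972, 17130, 10333, 67677, 86283, 80417, 71492, 82664,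
   140008, 132189, 151691, 145937, 137026, 51010, 43240, 34077, 53411, 47636, 104980, 115522,
   108648, 99597, 118945, 176289, 169492, 54804, 51906, 137922, 140120, 132203, 17515, 14477,
   100493, 119057, 104994, 47650, 42820, 50408, 34973, 53523, 168211, 176674, 173636, 87620,
   84680, 67929, 69931, 78373, 107045, 119876, 117384, 146056, 132945, 135402, 139805, 152643,
   181315, 178312, 165649, 22289, 6882, 9052, 66396, 82027, 79885, 87809, 72416, 43744, 34140,
   49323, 47125, 55042, 169730, 172768, 164956, 180363, 178193, 120849, 105218, 107360, 78688,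
   67180, 9836, 17613, 132301, 151705, 180377, 170003, 55315, 47874, 42848, 71520, 66284, 82013,
   88075, 80641, 109313, 103776, 98988, 114773, 120842, 178186, 173825, 169184, 164508, 180307,
   151635, 145930, 141121, 136424, 131741, 17053, 22611, 15114, 10081, 5356, 34028, 49309, 135325,
   152083, 145986, 141128, 132329, 17641, 6301, 21267, 164627, 176226, 118882, 109068, 116033,
   144705, 136872, 131797, 151642, 141835, 84491, 80193, 71464, 66277, 86108, 172124, 181259,
   178305, 169744, 164578, 21218, 10844, 17739, 14505, 5909, 34581, 53474, 168162, 172572, 86556,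
   84547, 80200, 67369, 69861, 41189, 54300, 51843, 47440, 34602, 5930, 8933, 21596, 19083, 14673,
   100689, 102698, 45354, 42533, 71205, 86724, 84568, 141912, 132427, 143529, 114857, 104469,
   119554, 176898, 173664, 165068, 21708, 19097, 133785, 135507, 49491, 47146, 42757, 54496,
   35484, 6812, 17235, 14442, 9997, 21729, 165089, 168092, 180755, 178242, 173832, 87816, 68321,
   10977, 5468, 17067, 14421, 22282, 165642, 172257, 168988, 180867, 178256, 120912, 101130,
   106849, 103468, 115333, 144005, 153168, 133834, 139609, 136235, 50219, 47237, 55056, 35554,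
   41308, 69980, 82475, 79941, 108613, 120072, 101025, 102740, 115242, 143914, 140869, 152776,
   181448, 166041, 22681, 6931, 13154, 99170, 106604, 77932, 83469, 140813, 152769, 137880,
   131923, 143466, 114794, 108557, 120065, 105120, 99156, 13140, 18026, 10445, 21785, 6819, 35491,
   45396, 50730, 43205, 54552, 169240, 164515, 176212, 181770, 174273, 88257, 72472, 66403, 9059,
   13420, 99436, 114829, 143501, 153105, 181777, 170178, 55490, 43800, 34147, 5475, 12972, 18005,
   132693, 151754, 180426, 174105, 169219, 54531, 47776, 34644, 49386, 43037, 71709, 86787, 80480,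
   109152, 99660, 13644, 18089, 132777, 135381, 49365, 55322, 170010, 172803, 177248, 119904,
   101004, 115025, 104490, 107269, 78597, 87648, 68300, 82265, 71723, 43051, 46341, 103685,
   119456, 176800, 165460, 22100, 19146, 10585, 5419, 12965, 98981, 118868, 117258, 108865,
   103720, 46376, 34469, 53460, 51738, 43331, 72003, 78632, 107304, 99429, 13413, 22156, 165516,
   180433, 151761, 137754, 140099, 82755, 79976, 67341, 86241, 72220, 43548, 50499, 47272, 104616,
   99093, 13077, 22114, 10956, 17753, 6315, 34987, 45333, 54818, 43716, 50520, 136536, 131755,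
   143445, 153098, 142017, 84673, 72024, 43352, 34091, 45221, 102565, 119316, 117314, 108872,
   99625, 13609, 5797, 21204, 164564, 180314, 174091, 177409, 169632, 54944, 35540, 49498, 135514,
   139819, 144453, 153224, 133841, 19153, 6490, 9003, 66347, 77925, 87564, 173580, 181441, 170136,
   55448, 35603, 45410, 102754, 107052, 115781, 120968, 101137, 15121, 5986, 8940, 17501, 22667,
   166027, 176401, 169506, 172740, 181336, 152664, 133771, 143697, 136746, 139973, 82629, 88152,
   68363, 78177, 71212, 42540, 50373, 136389, 152216, 180888, 165971, 176394, 173601, 169156,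
   54468, 51864, 35155, 6483, 13098, 9829, 67173, 86220, 84505, 141849, 136515, 144040, 115368,
   100437, 119050, 109089, 103748, 46404, 50856, 35029, 6357, 21274, 10851, 68195, 78156, 106828,
   115753, 104581, 119568, 100962, 14946, 10060, 67404, 82153, 139497, 136221, 152195, 146000,
   132938, 18250, 10473, 5405, 21155, 14932, 100948, 115018, 108585, 79913, 71429, 86752, 68188,
   82251, 139595, 144425, 136837, 152272, 133722, 19034, 10571, 67915, 78121, 106793, 103461,
   119428, 117328, 100682, 14666, 10025, 5349, 21148, 19027, 133715, 143690, 140841, 83497, 71877,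
   86808, 172824, 164963, 176268, 118924, 117265, 104770, 47426, 42792, 34021, 53404, 51731,
   137747, 144194, 140904, 83560, 67789, 86297, 172313, 168995, 176772, 181840, 166090, 22730,
   11033, 68377, 69987, 78380, 83525, 88264, 174280, 165145, 168099, 176660, 181826, 153154,
   142024, 132441, 135339, 143893, 115221, 120898, 109320, 80648, 67425, 69868, 82461, 88131,
   174147, 177416, 165537, 168148, 180762, 152090, 141891, 144712, 116040, 100521, 102677, 119330,
   109124, 80452, 83784, 67817, 69917, 86563, 172579, 177220, 181896]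

theorem path_walk : walk encOne path = true := by decide +kernel

theorem path_nodup : nodupb path = true := by decide +kernel

theorem path_length : path.length = 720 := by decide +kernel

theorem exists_steps (L : List ℕ) : ∀ g : Perm (Fin 6), walk (enc g) L = true →
    ∃ l : List (Perm (Fin 6)), l.length = L.length ∧
      (∀ x ∈ l, x ∈ ({A 4, B 4} : Set (Perm (Fin 6)))) ∧
      (∀ k < L.length, enc (g * (l.take (k + 1)).prod) = L.getD k 0) ∧
      g * l.prod = 1 := by
  induction L with
  | nil =>
    intro g hg
    refine ⟨[], rfl, by simp, by simp, ?_⟩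
    simp only [walk, Nat.beq_eq] at hg
    simpa using enc_eq_one g hg
  | cons s' L ih =>
    intro g hg
    simp only [walk, Bool.and_eq_true, Bool.or_eq_true, Nat.beq_eq] at hg
    obtain ⟨h1, h2⟩ := hg
    have key : ∃ x : Perm (Fin 6), x ∈ ({A 4, B 4} : Set (Perm (Fin 6))) ∧ enc (g * x) = s' := by
      rcases h1 with h1 | h1
      · exact ⟨A 4, by simp, by rw [enc_mul_A, h1]⟩
      · exact ⟨B 4, by simp, by rw [enc_mul_B, h1]⟩
    obtain ⟨x, hx, hxs⟩ := key
    rw [← hxs] at h2
    obtain ⟨l, hl1, hl2, hl3, hl4⟩ := ih (g * x) h2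
    refine ⟨x :: l, by simp [hl1], ?_, ?_, ?_⟩
    · intro y hy
      rcases List.mem_cons.1 hy with rfl | hy
      · exact hx
      · exact hl2 y hy
    · intro k hk
      cases k with
      | zero => simpa using hxs
      | succ k =>
        have := hl3 k (by simpa using hk)
        rw [List.take_succ_cons, List.prod_cons, ← mul_assoc, this]
        simp
    · rw [List.prod_cons, ← mul_assoc, hl4]

theorem partialProd_eq (l : List (Perm (Fin 6))) (k : ℕ) :
    partialProd (fun i => l.getD (i - 1) 1) k = (l.take k).prod := by
  induction k with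
  | zero => simp [partialProd]
  | succ k ih =>
    rw [partialProd, ih, Nat.add_sub_cancel]
    by_cases hk : k < l.length
    · rw [List.prod_take_succ l k hk, List.getD_eq_getElem l 1 hk]
    · rw [List.getD_eq_default _ _ (not_lt.1 hk), mul_one, List.take_of_length_le (not_lt.1 hk),
        List.take_of_length_le (le_trans (not_lt.1 hk) (Nat.le_succ k))]

/-- **`S_6` is generated unicursally by the transposition `(5 6)` and the `5`-cycle
`(1 2 3 4 5)`**: the answer to the question for `n = 6` is affirmative. -/
theorem result : GeneratedUnicursally ({A 4, B 4} : Set (Perm (Fin 6))) := by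
  have hcard : Nat.card (Perm (Fin 6)) = 720 := by
    rw [Nat.card_eq_fintype_card, Fintype.card_perm, Fintype.card_fin]
    rfl
  have h1 : enc (1 : Perm (Fin 6)) = encOne := by simp [enc, encOne]
  obtain ⟨l, hl1, hl2, hl3, hl4⟩ := exists_steps path 1 (by rw [h1]; exact path_walk)
  rw [path_length] at hl1 hl3
  refine ⟨fun i => l.getD (i - 1) 1, ?_, ?_, ?_⟩
  · intro k hk1 hk2
    rw [hcard] at hk2
    have hk : k - 1 < l.length := by omega
    simp only
    rw [List.getD_eq_getElem l 1 hk]
    exact hl2 _ (List.getElem_mem hk)
  · intro i j hi hij hj he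
    rw [hcard] at hj
    rw [partialProd_eq, partialProd_eq] at he
    have hi' := hl3 (i - 1) (by omega)
    have hj' := hl3 (j - 1) (by omega)
    rw [Nat.sub_add_cancel hi, one_mul] at hi'
    rw [Nat.sub_add_cancel (by omega), one_mul] at hj'
    rw [he, hj'] at hi'
    have hn := (nodupb_iff path).1 path_nodup
    have hi2 : i - 1 < path.length := by rw [path_length]; omega
    have hj2 : j - 1 < path.length := by rw [path_length]; omega
    rw [List.getD_eq_getElem path 0 hi2, List.getD_eq_getElem path 0 hj2] at hi'
    have := (List.Nodup.getElem_inj_iff hn).1 hi'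
    omega
  · rw [hcard, partialProd_eq, ← hl1, List.take_length]
    simpa using hl4

end Pool.Agent.Results.MP_c9dba7_co.SymSix
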